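import Mathlib

/-! One variable contour lemma: integral of A/B over the real line for B > 0. -/

open Polynomial MeasureTheory Filter Topology

namespace Pool.Agent.W_2cf66e_h78.Contour

/-- coefficientwise complex conjugate of a complex polynomial -/
noncomputable def cj (p : ℂ[X]) : ℂ[X] := p.map (starRingEnd ℂ)

theorem cj_mul (p q : ℂ[X]) : cj (p * q) = cj p * cj q := by simp [cj]
theorem cj_add (p q : ℂ[X]) : cj (p + q) = cj p + cj q := by simp [cj]
theorem cj_sub (p q : ℂ[X]) : cj (p - q) = cj p - cj q := by simp [cj]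
theorem cj_one : cj 1 = 1 := by simp [cj]
theorem cj_cj (p : ℂ[X]) : cj (cj p) = p := by
  ext n; simp [cj]
theorem cj_monic {p : ℂ[X]} (h : p.Monic) : (cj p).Monic := h.map _
theorem cj_natDegree (p : ℂ[X]) : (cj p).natDegree = p.natDegree := by
  simp [cj, natDegree_map]
theorem cj_degree (p : ℂ[X]) : (cj p).degree = p.degree := by
  simp [cj, degree_map]
theorem cj_ofReal (p : ℝ[X]) : cj (p.map (algebraMap ℝ ℂ)) = p.map (algebraMap ℝ ℂ) := by
  ext n; simp [cj]
theorem cj_eval (p : ℂ[X]) (z : ℂ) : (cj p).eval z = (starRingEnd ℂ) (p.eval ((starRingEnd ℂ) z)) := by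
  have h := Polynomial.hom_eval₂ p (RingHom.id ℂ) (starRingEnd ℂ) ((starRingEnd ℂ) z)
  rw [Polynomial.eval₂_id] at h
  rw [cj, eval_map, h]
  simp
theorem cj_isRoot {p : ℂ[X]} {z : ℂ} : (cj p).IsRoot z ↔ p.IsRoot ((starRingEnd ℂ) z) := by
  simp only [IsRoot, cj_eval]
  simp

/-- factorisation of a positive real polynomial -/
theorem exists_factor (n : ℕ) : ∀ B : ℝ[X], B.natDegree = n → (∀ x : ℝ, 0 < B.eval x) →
    ∃ (b : ℝ) (C : ℂ[X]), 0 < b ∧ C.Monic ∧ (∀ z, C.IsRoot z → z.im < 0) ∧
      B.map (algebraMap ℝ ℂ) = Polynomial.C (b : ℂ) * (C * cj C) := by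
  induction n using Nat.strong_induction_on with
  | _ n ih =>
  intro B hn hB
  rcases Nat.eq_zero_or_pos n with h0 | hpos
  · have hc : B = Polynomial.C (B.coeff 0) := eq_C_of_natDegree_eq_zero (hn.trans h0)
    refine ⟨B.coeff 0, 1, ?_, monic_one, ?_, ?_⟩
    · have := hB 0
      rw [hc] at this
      simpa using this
    · intro z hz
      simp [IsRoot] at hz
    · rw [cj_one, mul_one, mul_one]
      conv_lhs => rw [hc]
      simp
  · have hdeg : 0 < (B.map (algebraMap ℝ ℂ)).degree := by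
      rw [degree_map]
      exact natDegree_pos_iff_degree_pos.mp (hn ▸ hpos)
    obtain ⟨z, hz⟩ := Complex.exists_root hdeg
    have hz' : aeval z B = 0 := by
      rw [IsRoot, eval_map_algebraMap] at hz
      exact hz
    have him : z.im ≠ 0 := by
      intro h
      have hzr : z = ((z.re : ℝ) : ℂ) := by
        apply Complex.ext <;> simp [h]
      rw [hzr] at hz'
      have h2 : ((B.eval z.re : ℝ) : ℂ) = 0 := by
        rw [← hz']
        have := Polynomial.aeval_algebraMap_apply ℂ z.re B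
        simpa using this.symm
      have h3 : B.eval z.re = 0 := by exact_mod_cast h2
      exact (hB z.re).ne' h3
    obtain ⟨B', hB'⟩ := Polynomial.quadratic_dvd_of_aeval_eq_zero_im_ne_zero B hz' him
    set q : ℝ[X] := X ^ 2 - Polynomial.C (2 * z.re) * X + Polynomial.C (‖z‖ ^ 2) with hq
    have hqe : ∀ x : ℝ, q.eval x = (x - z.re) ^ 2 + z.im ^ 2 := by
      intro x
      have : ‖z‖ ^ 2 = z.re ^ 2 + z.im ^ 2 := by
        rw [← Complex.normSq_eq_norm_sq, Complex.normSq_apply]; ring
      simp [hq, this]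
      ring
    have hqpos : ∀ x : ℝ, 0 < q.eval x := by
      intro x
      rw [hqe]
      positivity
    have hqdeg : q.natDegree = 2 := by
      rw [hq]
      compute_degree!
    have hB'pos : ∀ x : ℝ, 0 < B'.eval x := by
      intro x
      have h1 := hB x
      rw [hB', eval_mul] at h1
      exact (pos_iff_pos_of_mul_pos h1).mp (hqpos x)
    have hq0 : q ≠ 0 := by
      intro h
      rw [h] at hqdeg
      simp at hqdeg
    have hB'0 : B' ≠ 0 := by
      intro h
      have := hB'pos 0
      rw [h] at this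
      simp at this
    have hdeg' : B'.natDegree + 2 = n := by
      rw [← hn, hB', natDegree_mul hq0 hB'0, hqdeg, add_comm]
    obtain ⟨b, C', hb, hC', hroot, hfac⟩ := ih B'.natDegree (by omega) B' rfl hB'pos
    -- the root in the lower half plane
    obtain ⟨w, hw, hww⟩ : ∃ w : ℂ, w.im < 0 ∧ q.map (algebraMap ℝ ℂ) = (X - Polynomial.C w) * (X - Polynomial.C ((starRingEnd ℂ) w)) := by
      have hn2 : ‖z‖ ^ 2 = z.re ^ 2 + z.im ^ 2 := by
        rw [← Complex.normSq_eq_norm_sq, Complex.normSq_apply]; ring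
      have key : ∀ w : ℂ, w.re = z.re → w.im ^ 2 = z.im ^ 2 → q.map (algebraMap ℝ ℂ) = (X - Polynomial.C w) * (X - Polynomial.C ((starRingEnd ℂ) w)) := by
        intro w h1 h2
        have e1 : (X - Polynomial.C w) * (X - Polynomial.C ((starRingEnd ℂ) w)) = X ^ 2 - Polynomial.C (w + (starRingEnd ℂ) w) * X + Polynomial.C (w * (starRingEnd ℂ) w) := by
          rw [Polynomial.C_add, Polynomial.C_mul]; ring
        have e2 : w + (starRingEnd ℂ) w = ((2 * z.re : ℝ) : ℂ) := by
          rw [Complex.add_conj, h1]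
        have e3 : w * (starRingEnd ℂ) w = ((‖z‖ ^ 2 : ℝ) : ℂ) := by
          rw [Complex.mul_conj, Complex.normSq_apply, hn2, ← h1, ← h2]
          congr 1; ring
        rw [e1, e2, e3, hq]
        simp only [Polynomial.map_add, Polynomial.map_sub, Polynomial.map_mul, Polynomial.map_pow, Polynomial.map_X, Polynomial.map_C, Complex.coe_algebraMap]
      rcases lt_or_gt_of_ne him with h | h
      · exact ⟨z, h, key z rfl rfl⟩
      · refine ⟨(starRingEnd ℂ) z, by simpa using h, key _ (by simp) (by simp)⟩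
    refine ⟨b, (X - Polynomial.C w) * C', hb, (monic_X_sub_C w).mul hC', ?_, ?_⟩
    · intro y hy
      rcases Polynomial.root_mul.mp hy with h | h
      · rw [root_X_sub_C] at h
        rw [← h]; exact hw
      · exact hroot y h
    · rw [hB', Polynomial.map_mul, hfac, hww, cj_mul]
      have : cj (X - Polynomial.C w) = X - Polynomial.C ((starRingEnd ℂ) w) := by simp [cj]
      rw [this]
      ring

/-- Bezout form: every polynomial of degree below 2k is U * cj C + cj U * C -/
theorem exists_U {C : ℂ[X]} (hC : C.Monic) (hroot : ∀ z, C.IsRoot z → z.im < 0) (A : ℝ[X])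
    (hA : A.natDegree < 2 * C.natDegree) :
    ∃ U : ℂ[X], U.natDegree < C.natDegree ∧ A.map (algebraMap ℝ ℂ) = U * cj C + cj U * C := by
  have hk : 0 < C.natDegree := by omega
  have hcop : IsCoprime C (cj C) := by
    rw [Polynomial.isCoprime_iff_aeval_ne_zero_of_isAlgClosed ℂ ℂ]
    intro a
    by_contra h
    push Not at h
    obtain ⟨h1, h2⟩ := h
    have r1 : C.IsRoot a := by simpa [IsRoot] using h1
    have r2 : C.IsRoot ((starRingEnd ℂ) a) := cj_isRoot.mp (by simpa [IsRoot] using h2)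
    have i1 := hroot _ r1
    have i2 := hroot _ r2
    simp at i2
    linarith
  obtain ⟨s, t, hst⟩ := hcop
  set Ac : ℂ[X] := A.map (algebraMap ℝ ℂ) with hAc
  have hcC : (cj C).Monic := cj_monic hC
  set U : ℂ[X] := (Ac * t) %ₘ C with hU
  set V : ℂ[X] := Ac * s + ((Ac * t) /ₘ C) * cj C with hV
  have hsum : Ac = U * cj C + V * C := by
    have hm := modByMonic_add_div (Ac * t) C
    have : U * cj C + V * C = Ac * (s * C + t * cj C) := by
      have hU' : U = Ac * t - C * ((Ac * t) /ₘ C) := by rw [hU, eq_sub_iff_add_eq, hm]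
      rw [hU', hV]; ring
    rw [this, hst, mul_one]
  have hUd : U.degree < C.degree := degree_modByMonic_lt _ hC
  have hUn : U.natDegree < C.natDegree := by
    rcases eq_or_ne U 0 with h | h
    · rw [h]; simpa using hk
    · exact natDegree_lt_natDegree h hUd
  have hcn : (cj C).natDegree = C.natDegree := cj_natDegree C
  have hVn : V = 0 ∨ V.natDegree < C.natDegree := by
    rcases eq_or_ne V 0 with h | h
    · exact Or.inl h
    · right
      have h1 : V * C = Ac - U * cj C := by rw [hsum]; ring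
      have h2 : (V * C).natDegree = V.natDegree + C.natDegree := natDegree_mul h hC.ne_zero
      have h3 : (Ac - U * cj C).natDegree < 2 * C.natDegree := by
        refine lt_of_le_of_lt (natDegree_sub_le _ _) (max_lt ?_ ?_)
        · rw [hAc, natDegree_map]; exact hA
        · refine lt_of_le_of_lt (natDegree_mul_le) ?_
          rw [hcn]; omega
      rw [h1] at h2
      omega
  -- uniqueness
  have hconj : Ac = cj U * C + cj V * cj C := by
    have := congrArg cj hsum
    rw [hAc, cj_ofReal, cj_add, cj_mul, cj_mul, cj_cj] at this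
    exact this
  have hdiff : (U - cj V) * cj C = (cj U - V) * C := by
    have : U * cj C + V * C = cj U * C + cj V * cj C := hsum.symm.trans hconj
    linear_combination this
  have hdvd : C ∣ U - cj V := by
    have h1 : C ∣ (U - cj V) * cj C := by rw [hdiff]; exact Dvd.intro_left _ rfl
    have hcop : IsCoprime C (cj C) := ⟨s, t, hst⟩
    exact hcop.dvd_of_dvd_mul_right h1
  have hlow : (U - cj V).natDegree < C.natDegree := by
    refine lt_of_le_of_lt (natDegree_sub_le _ _) (max_lt hUn ?_)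
    rcases hVn with h | h
    · rw [h]; simpa [cj] using hk
    · rw [cj_natDegree]; exact h
  have hz : U - cj V = 0 := by
    by_contra hne
    exact absurd (natDegree_le_of_dvd hdvd hne) (by omega)
  have hVU : V = cj U := by
    rw [sub_eq_zero] at hz
    rw [hz, cj_cj]
  exact ⟨U, hUn, by rw [hsum, hVU]⟩

/-- lower bound for a monic polynomial with split roots -/
theorem monic_lower (s : Multiset ℂ) (M r : ℝ) (hM : ∀ a ∈ s, ‖a‖ ≤ M) (z : ℂ) (hz : 2 * M ≤ ‖z‖) (hr : r = ‖z‖ / 2) :
    r ^ (Multiset.card s) ≤ ‖((s.map (fun a => X - Polynomial.C a)).prod).eval z‖ := by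
  induction s using Multiset.induction_on with
  | empty => simp
  | cons a s ih =>
    rw [Multiset.map_cons, Multiset.prod_cons, eval_mul, norm_mul, Multiset.card_cons, pow_succ, mul_comm]
    have h1 : r ≤ ‖(X - Polynomial.C a).eval z‖ := by
      have ha := hM a (Multiset.mem_cons_self a s)
      have : ‖z‖ - ‖a‖ ≤ ‖z - a‖ := norm_sub_norm_le z a
      simp only [eval_sub, eval_X, eval_C]
      rw [hr]; linarith
    have h2 := ih (fun b hb => hM b (Multiset.mem_cons_of_mem hb))
    have hr0 : 0 ≤ r := by rw [hr]; positivity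
    exact mul_le_mul h1 h2 (pow_nonneg hr0 _) (norm_nonneg _)

theorem upper_bd (N : ℂ[X]) (z : ℂ) (hz : 1 ≤ ‖z‖) (d : ℕ) (hd : N.natDegree ≤ d) :
    ‖N.eval z‖ ≤ (∑ i ∈ Finset.range (N.natDegree + 1), ‖N.coeff i‖) * ‖z‖ ^ d := by
  rw [eval_eq_sum_range]
  refine (norm_sum_le _ _).trans ?_
  rw [Finset.sum_mul]
  refine Finset.sum_le_sum fun i hi => ?_
  rw [norm_mul, norm_pow]
  have hi' : i ≤ d := by
    have := Finset.mem_range.mp hi
    omega
  gcongr

/-- quadratic decay of a quotient -/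
theorem decay (N D : ℂ[X]) (hD : D.Monic) (hdeg : N.natDegree + 2 ≤ D.natDegree) :
    ∃ K R : ℝ, 0 < K ∧ 1 ≤ R ∧ ∀ z : ℂ, R ≤ ‖z‖ → ‖N.eval z / D.eval z‖ ≤ K / ‖z‖ ^ 2 := by
  have hsplit : D = (D.roots.map (fun a => X - Polynomial.C a)).prod := by
    have := (IsAlgClosed.splits D).eq_prod_roots_of_monic hD
    exact this
  have hcard : Multiset.card D.roots = D.natDegree := by
    conv_rhs => rw [hsplit]
    rw [natDegree_multiset_prod_X_sub_C_eq_card]
  obtain ⟨M, hM0, hM⟩ : ∃ M : ℝ, 1 ≤ M ∧ ∀ a ∈ D.roots, ‖a‖ ≤ M := by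
    refine ⟨1 + (D.roots.map (fun a => ‖a‖)).sum, ?_, ?_⟩
    · have : 0 ≤ (D.roots.map (fun a => ‖a‖)).sum := Multiset.sum_nonneg (by
        intro x hx
        obtain ⟨a, _, rfl⟩ := Multiset.mem_map.mp hx
        exact norm_nonneg a)
      linarith
    · intro a ha
      have : ‖a‖ ≤ (D.roots.map (fun a => ‖a‖)).sum := Multiset.single_le_sum (by
        intro x hx
        obtain ⟨a, _, rfl⟩ := Multiset.mem_map.mp hx
        exact norm_nonneg a) _ (Multiset.mem_map_of_mem _ ha)
      linarith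
  set S : ℝ := (∑ i ∈ Finset.range (N.natDegree + 1), ‖N.coeff i‖) with hS
  have hS0 : 0 ≤ S := Finset.sum_nonneg fun i _ => norm_nonneg _
  set d := D.natDegree with hd
  refine ⟨(S + 1) * 2 ^ d, 2 * M, by positivity, by linarith, ?_⟩
  intro z hz
  have hz1 : 1 ≤ ‖z‖ := by linarith
  have hz0 : 0 < ‖z‖ := by linarith
  have h1 := upper_bd N z hz1 (d - 2) (by omega)
  have h2 := monic_lower D.roots M (‖z‖ / 2) hM z hz rfl
  rw [← hsplit, hcard] at h2
  have hpos : 0 < (‖z‖ / 2) ^ d := by positivity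
  rw [norm_div]
  calc ‖N.eval z‖ / ‖D.eval z‖ ≤ (S * ‖z‖ ^ (d - 2)) / ((‖z‖ / 2) ^ d) := by
        apply div_le_div₀ (by positivity) h1 hpos h2
    _ = (S * 2 ^ d) / ‖z‖ ^ 2 := by
        have : ‖z‖ ^ d = ‖z‖ ^ (d - 2) * ‖z‖ ^ 2 := by
          rw [← pow_add]; congr 1; omega
        rw [div_pow, this]
        field_simp
    _ ≤ ((S + 1) * 2 ^ d) / ‖z‖ ^ 2 := by
        gcongr
        linarith

theorem decay' (N D : ℂ[X]) (hD : D.Monic) (hdeg : N.natDegree + 2 ≤ D.natDegree) :
    ∃ K R : ℝ, 0 < K ∧ 1 ≤ R ∧ ∀ T : ℝ, R ≤ T → ∀ z : ℂ, T ≤ ‖z‖ → ‖N.eval z / D.eval z‖ ≤ K / T ^ 2 := by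
  obtain ⟨K, R, hK, hR, h⟩ := decay N D hD hdeg
  refine ⟨K, R, hK, hR, fun T hT z hz => (h z (hT.trans hz)).trans ?_⟩
  have : 0 < T := by linarith
  gcongr

theorem ne_of_im {D : ℂ[X]} (hroot : ∀ z, D.IsRoot z → z.im < 0) {z : ℂ} (hz : 0 ≤ z.im) : D.eval z ≠ 0 :=
  fun h => absurd (hroot z h) (by linarith)

theorem line_integrable (N D : ℂ[X]) (hD : D.Monic) (hroot : ∀ z, D.IsRoot z → z.im < 0)
    (hdeg : N.natDegree + 2 ≤ D.natDegree) :
    Integrable (fun x : ℝ => N.eval (x : ℂ) / D.eval (x : ℂ)) := by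
  obtain ⟨K, R, hK, hR, h⟩ := decay N D hD hdeg
  have hne : ∀ x : ℝ, D.eval (x : ℂ) ≠ 0 := fun x => ne_of_im hroot (by simp)
  have hcont : Continuous (fun x : ℝ => N.eval (x : ℂ) / D.eval (x : ℂ)) := by
    refine Continuous.div ?_ ?_ hne
    · exact N.continuous.comp Complex.continuous_ofReal
    · exact D.continuous.comp Complex.continuous_ofReal
  obtain ⟨B0, hB0⟩ := (isCompact_Icc (a := -R) (b := R)).exists_bound_of_continuousOn hcont.continuousOn
  have hint : Integrable (fun x : ℝ => (2 * K + |B0| * (1 + R ^ 2)) * (1 + x ^ 2)⁻¹) :=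
    integrable_inv_one_add_sq.const_mul _
  refine hint.mono' hcont.aestronglyMeasurable (Eventually.of_forall fun x => ?_)
  have hx0 : 0 < 1 + x ^ 2 := by positivity
  rcases le_or_gt R |x| with hx | hx
  · have h1 := h (x : ℂ) (by simpa using hx)
    have hx1 : 1 ≤ |x| := hR.trans hx
    have hx2 : 1 ≤ x ^ 2 := by
      rw [← sq_abs]; nlinarith
    have h2 : K / ‖(x : ℂ)‖ ^ 2 ≤ 2 * K * (1 + x ^ 2)⁻¹ := by
      rw [Complex.norm_real, Real.norm_eq_abs, sq_abs, ← div_eq_mul_inv, div_le_div_iff₀ (by linarith) hx0]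
      nlinarith
    refine (h1.trans h2).trans ?_
    have : 0 ≤ |B0| * (1 + R ^ 2) * (1 + x ^ 2)⁻¹ := by positivity
    nlinarith
  · have hmem : x ∈ Set.Icc (-R) R := abs_le.mp hx.le
    have h1 : ‖N.eval (x : ℂ) / D.eval (x : ℂ)‖ ≤ |B0| := (hB0 x hmem).trans (le_abs_self _)
    have hxR : x ^ 2 ≤ R ^ 2 := by
      rw [← sq_abs x]
      exact pow_le_pow_left₀ (abs_nonneg x) hx.le 2
    have h2 : |B0| ≤ |B0| * (1 + R ^ 2) * (1 + x ^ 2)⁻¹ := by
      rw [← div_eq_mul_inv, le_div_iff₀ hx0]
      have := abs_nonneg B0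
      nlinarith
    refine (h1.trans h2).trans ?_
    have : 0 ≤ 2 * K * (1 + x ^ 2)⁻¹ := by positivity
    nlinarith

theorem rect_bound (N D : ℂ[X]) (hroot : ∀ z, D.IsRoot z → z.im < 0)
    {K R T : ℝ} (hR : 1 ≤ R) (h : ∀ T : ℝ, R ≤ T → ∀ z : ℂ, T ≤ ‖z‖ → ‖N.eval z / D.eval z‖ ≤ K / T ^ 2)
    (hT : R ≤ T) : ‖∫ x : ℝ in (-T)..T, N.eval (x : ℂ) / D.eval (x : ℂ)‖ ≤ 4 * K / T := by
  have hT0 : 0 < T := by linarith
  set f : ℂ → ℂ := fun z => N.eval z / D.eval z with hf
  have hdiff : DifferentiableOn ℂ f (Set.uIcc (-T) T ×ℂ Set.uIcc 0 T) := by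
    intro z hz
    have him : 0 ≤ z.im := by
      have := hz.2
      simp only [Set.mem_preimage, Set.uIcc_of_le hT0.le, Set.mem_Icc] at this
      exact this.1
    refine DifferentiableAt.differentiableWithinAt ?_
    exact N.differentiable.differentiableAt.div D.differentiable.differentiableAt (ne_of_im hroot him)
  have hrect := Complex.integral_boundary_rect_eq_zero_of_differentiableOn f ⟨-T, 0⟩ ⟨T, T⟩ hdiff
  simp only [Complex.ofReal_zero, zero_mul, add_zero] at hrect
  have htop : ‖∫ x : ℝ in (-T)..T, f (x + T * Complex.I)‖ ≤ K / T ^ 2 * |T - (-T)| := by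
    refine intervalIntegral.norm_integral_le_of_norm_le_const fun x _ => h T hT _ ?_
    have := Complex.abs_im_le_norm ((x : ℂ) + T * Complex.I)
    simp at this
    exact (le_abs_self T).trans this
  have hright : ‖∫ y : ℝ in (0:ℝ)..T, f (T + y * Complex.I)‖ ≤ K / T ^ 2 * |T - 0| := by
    refine intervalIntegral.norm_integral_le_of_norm_le_const fun x _ => h T hT _ ?_
    have := Complex.abs_re_le_norm ((T : ℂ) + x * Complex.I)
    simp at this
    exact (le_abs_self T).trans this
  have hleft : ‖∫ y : ℝ in (0:ℝ)..T, f (((-T : ℝ) : ℂ) + y * Complex.I)‖ ≤ K / T ^ 2 * |T - 0| := by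
    refine intervalIntegral.norm_integral_le_of_norm_le_const fun x _ => h T hT _ ?_
    have := Complex.abs_re_le_norm (((-T : ℝ) : ℂ) + x * Complex.I)
    simp at this
    exact (le_abs_self T).trans (by simpa using this)
  have heq : (∫ x : ℝ in (-T)..T, f x) = (∫ x : ℝ in (-T)..T, f (x + T * Complex.I)) - Complex.I • (∫ y : ℝ in (0:ℝ)..T, f (T + y * Complex.I)) + Complex.I • (∫ y : ℝ in (0:ℝ)..T, f (((-T : ℝ) : ℂ) + y * Complex.I)) := by
    linear_combination hrect
  have h1 : |T - -T| = 2 * T := by rw [abs_of_nonneg (by linarith)]; ring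
  have h2 : |T - 0| = T := by rw [sub_zero, abs_of_pos hT0]
  rw [h1] at htop
  rw [h2] at hright hleft
  show ‖∫ x : ℝ in (-T)..T, f x‖ ≤ 4 * K / T
  rw [heq]
  have hI1 : ‖Complex.I • (∫ y : ℝ in (0:ℝ)..T, f (T + y * Complex.I))‖ ≤ K / T ^ 2 * T := by
    rw [norm_smul, Complex.norm_I, one_mul]; exact hright
  have hI2 : ‖Complex.I • (∫ y : ℝ in (0:ℝ)..T, f (((-T : ℝ) : ℂ) + y * Complex.I))‖ ≤ K / T ^ 2 * T := by
    rw [norm_smul, Complex.norm_I, one_mul]; exact hleft
  refine (norm_add_le _ _).trans ?_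
  have h3 := norm_sub_le (∫ x : ℝ in (-T)..T, f (x + T * Complex.I)) (Complex.I • (∫ y : ℝ in (0:ℝ)..T, f (T + y * Complex.I)))
  have h4 : K / T ^ 2 * (2 * T) + K / T ^ 2 * T + K / T ^ 2 * T = 4 * K / T := by
    field_simp; ring
  linarith

theorem line_zero (N D : ℂ[X]) (hD : D.Monic) (hroot : ∀ z, D.IsRoot z → z.im < 0)
    (hdeg : N.natDegree + 2 ≤ D.natDegree) : ∫ x : ℝ, N.eval (x : ℂ) / D.eval (x : ℂ) = 0 := by
  obtain ⟨K, R, hK, hR, h⟩ := decay' N D hD hdeg
  have hint := line_integrable N D hD hroot hdeg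
  have hlim := intervalIntegral_tendsto_integral hint tendsto_neg_atTop_atBot tendsto_id
  have hzero : Tendsto (fun T : ℝ => ∫ x : ℝ in (-T)..T, N.eval (x : ℂ) / D.eval (x : ℂ)) atTop (𝓝 0) := by
    rw [tendsto_zero_iff_norm_tendsto_zero]
    refine squeeze_zero' (Eventually.of_forall fun T => norm_nonneg _) ((eventually_ge_atTop R).mono fun T hT => rect_bound N D hroot hR h hT) ?_
    exact tendsto_const_nhds.div_atTop tendsto_id
  exact tendsto_nhds_unique hlim hzero

/-- MAIN: value of the integral. -/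
theorem contour {A B : ℝ[X]} {b : ℝ} {C U : ℂ[X]} (hb : 0 < b) (hC : C.Monic)
    (hroot : ∀ z, C.IsRoot z → z.im < 0) (hB : B.map (algebraMap ℝ ℂ) = Polynomial.C (b : ℂ) * (C * cj C))
    (hA : A.map (algebraMap ℝ ℂ) = U * cj C + cj U * C) (hU : U.natDegree < C.natDegree)
    (hdeg : A.natDegree + 2 ≤ B.natDegree) :
    Integrable (fun x : ℝ => A.eval x / B.eval x) ∧
      ∫ x : ℝ, A.eval x / B.eval x = 2 * Real.pi / b * (U.coeff (C.natDegree - 1)).im := by
  set k := C.natDegree with hk
  have hk0 : 0 < k := by omega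
  set u := U.coeff (k - 1) with hu
  have hbC : (b : ℂ) ≠ 0 := by exact_mod_cast hb.ne'
  have hBdeg : B.natDegree = 2 * k := by
    have h1 : (B.map (algebraMap ℝ ℂ)).natDegree = B.natDegree := natDegree_map _
    rw [← h1, hB, natDegree_C_mul hbC, hC.natDegree_mul (cj_monic hC), cj_natDegree]
    omega
  -- u is purely imaginary
  have hure : u.re = 0 := by
    have h1 : (A.map (algebraMap ℝ ℂ)).coeff (2 * k - 1) = 0 := by
      rw [coeff_map, coeff_eq_zero_of_natDegree_lt (by omega)]
      simp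
    have h2 : (U * cj C).coeff (2 * k - 1) = u := by
      have e : 2 * k - 1 = (k - 1) + k := by omega
      have hcm : (cj C).coeff k = 1 := by
        have := (cj_monic hC).coeff_natDegree
        rwa [cj_natDegree] at this
      rw [e, coeff_mul_add_eq_of_natDegree_le (by omega) (by rw [cj_natDegree]), hcm, mul_one]
    have h3 : (cj U * C).coeff (2 * k - 1) = (starRingEnd ℂ) u := by
      have e : 2 * k - 1 = (k - 1) + k := by omega
      have hcm : C.coeff k = 1 := hC.coeff_natDegree
      rw [e, coeff_mul_add_eq_of_natDegree_le (by rw [cj_natDegree]; omega) le_rfl, hcm, mul_one]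
      simp [cj, hu]
    rw [hA, coeff_add, h2, h3, Complex.add_conj] at h1
    have h4 : 2 * u.re = 0 := by exact_mod_cast h1
    linarith
  -- the correction term
  set D : ℂ[X] := C * (X + Polynomial.C Complex.I) with hD
  set N : ℂ[X] := U * (X + Polynomial.C Complex.I) - Polynomial.C u * C with hN
  have hXI : (X + Polynomial.C Complex.I : ℂ[X]).Monic := monic_X_add_C _
  have hDm : D.Monic := hC.mul hXI
  have hDdeg : D.natDegree = k + 1 := by
    rw [hD, hC.natDegree_mul hXI, natDegree_X_add_C]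
  have hDroot : ∀ z, D.IsRoot z → z.im < 0 := by
    intro z hz
    rcases Polynomial.root_mul.mp hz with h | h
    · exact hroot z h
    · have : z + Complex.I = 0 := by simpa [IsRoot] using h
      have h2 : z = -Complex.I := eq_neg_of_add_eq_zero_left this
      rw [h2]; simp
  have hNdeg : N.natDegree + 2 ≤ D.natDegree := by
    rw [hDdeg]
    have hle : N.natDegree ≤ k := by
      refine (natDegree_sub_le _ _).trans (max_le ?_ ?_)
      · refine natDegree_mul_le.trans ?_
        rw [natDegree_X_add_C]; omega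
      · exact (natDegree_C_mul_le _ _)
    have hck : N.coeff k = 0 := by
      have e : k = (k - 1) + 1 := by omega
      have h1 : (U * (X + Polynomial.C Complex.I)).coeff k = u := by
        rw [e, coeff_mul_add_eq_of_natDegree_le (by omega) (by rw [natDegree_X_add_C])]
        simp [hu]
      rw [hN, coeff_sub, h1, coeff_C_mul, hC.coeff_natDegree, mul_one, sub_self]
    have hlt : N.natDegree < k := by
      rcases lt_or_eq_of_le hle with h | h
      · exact h
      · exfalso
        have hN0 : N ≠ 0 := by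
          intro h0
          rw [h0] at h
          simp at h
          omega
        have : N.leadingCoeff ≠ 0 := leadingCoeff_ne_zero.mpr hN0
        apply this
        rw [leadingCoeff, h, hck]
    omega
  have hint := line_integrable N D hDm hDroot hNdeg
  have hzero := line_zero N D hDm hDroot hNdeg
  have hpoint : ∀ x : ℝ, A.eval x / B.eval x = 2 / b * ((N.eval (x : ℂ) / D.eval (x : ℂ)).re + u.im * (1 + x ^ 2)⁻¹) := by
    intro x
    have hCx : C.eval (x : ℂ) ≠ 0 := ne_of_im hroot (by simp)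
    have hXx : (x : ℂ) + Complex.I ≠ 0 := by
      intro h
      have := congrArg Complex.im h
      simp at this
    have hcCx : (cj C).eval (x : ℂ) = (starRingEnd ℂ) (C.eval (x : ℂ)) := by
      rw [cj_eval, Complex.conj_ofReal]
    have hcUx : (cj U).eval (x : ℂ) = (starRingEnd ℂ) (U.eval (x : ℂ)) := by
      rw [cj_eval, Complex.conj_ofReal]
    have hcne : (starRingEnd ℂ) (C.eval (x : ℂ)) ≠ 0 := by
      simpa using hCx
    have e1 : N.eval (x : ℂ) / D.eval (x : ℂ) = U.eval (x : ℂ) / C.eval (x : ℂ) - u / ((x : ℂ) + Complex.I) := by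
      rw [hN, hD]
      simp only [eval_sub, eval_mul, eval_add, eval_X, eval_C]
      field_simp
    have e2 : (u / ((x : ℂ) + Complex.I)).re = u.im * (1 + x ^ 2)⁻¹ := by
      rw [Complex.div_re, hure]
      simp [Complex.normSq_apply]
      ring
    have e3 : ((A.eval x / B.eval x : ℝ) : ℂ) = ((2 / b * (U.eval (x : ℂ) / C.eval (x : ℂ)).re : ℝ) : ℂ) := by
      have hAx : ((A.eval x : ℝ) : ℂ) = U.eval (x : ℂ) * (starRingEnd ℂ) (C.eval (x : ℂ)) + (starRingEnd ℂ) (U.eval (x : ℂ)) * C.eval (x : ℂ) := by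
        have := congrArg (fun p => p.eval (x : ℂ)) hA
        simp only [eval_add, eval_mul, hcCx, hcUx] at this
        rw [← this, eval_map_algebraMap]
        have := Polynomial.aeval_algebraMap_apply ℂ x A
        simpa using this.symm
      have hBx : ((B.eval x : ℝ) : ℂ) = b * (C.eval (x : ℂ) * (starRingEnd ℂ) (C.eval (x : ℂ))) := by
        have := congrArg (fun p => p.eval (x : ℂ)) hB
        simp only [eval_mul, eval_C, hcCx] at this
        rw [← this, eval_map_algebraMap]
        have := Polynomial.aeval_algebraMap_apply ℂ x B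
        simpa using this.symm
      have hre : (((U.eval (x : ℂ) / C.eval (x : ℂ)).re : ℝ) : ℂ) = (U.eval (x : ℂ) / C.eval (x : ℂ) + (starRingEnd ℂ) (U.eval (x : ℂ) / C.eval (x : ℂ))) / 2 := by
        rw [Complex.add_conj]; push_cast; ring
      rw [Complex.ofReal_div, hAx, hBx, Complex.ofReal_mul, hre, map_div₀]
      push_cast
      field_simp
    have e4 : A.eval x / B.eval x = 2 / b * (U.eval (x : ℂ) / C.eval (x : ℂ)).re := by exact_mod_cast e3
    rw [e4, e1, Complex.sub_re, e2]
    ring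
  have hfun : (fun x : ℝ => A.eval x / B.eval x) = fun x : ℝ => 2 / b * ((N.eval (x : ℂ) / D.eval (x : ℂ)).re + u.im * (1 + x ^ 2)⁻¹) := funext hpoint
  have hi1 : Integrable (fun x : ℝ => (N.eval (x : ℂ) / D.eval (x : ℂ)).re) := hint.re
  have hi2 : Integrable (fun x : ℝ => u.im * (1 + x ^ 2)⁻¹) := integrable_inv_one_add_sq.const_mul _
  constructor
  · rw [hfun]
    exact (hi1.add hi2).const_mul _
  · rw [hfun, integral_const_mul, integral_add hi1 hi2, integral_const_mul, integral_univ_inv_one_add_sq]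
    have h0 : ∫ x : ℝ, (N.eval (x : ℂ) / D.eval (x : ℂ)).re = 0 := by
      have := integral_re hint
      have h5 : ∫ x : ℝ, (N.eval (x : ℂ) / D.eval (x : ℂ)).re = (∫ x : ℝ, (N.eval (x : ℂ) / D.eval (x : ℂ))).re := by
        simpa using this
      rw [h5, hzero]; simp
    rw [h0]
    ring

end Pool.Agent.W_2cf66e_h78.Contour
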