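import Mathlib

/-! Degree of an integrable rational function on the line. -/

open Polynomial MeasureTheory Filter Topology Asymptotics

namespace Pool.Agent.W_2cf66e_h78.Deg

theorem deg_of_integrable (A B : ℝ[X]) (hA : A ≠ 0) (hB : B ≠ 0)
    (h : Integrable (fun x : ℝ => A.eval x / B.eval x)) : A.natDegree + 2 ≤ B.natDegree := by
  by_contra hcon
  push Not at hcon
  have hequiv := Polynomial.isEquivalent_atTop_div A B
  have hc : A.leadingCoeff / B.leadingCoeff ≠ 0 :=
    div_ne_zero (leadingCoeff_ne_zero.mpr hA) (leadingCoeff_ne_zero.mpr hB)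
  have h1 : (fun x : ℝ => x⁻¹) =O[atTop] fun x : ℝ => A.leadingCoeff / B.leadingCoeff * x ^ (A.natDegree - B.natDegree : ℤ) := by
    refine IsBigO.of_bound (‖A.leadingCoeff / B.leadingCoeff‖⁻¹) ?_
    filter_upwards [eventually_ge_atTop (1:ℝ)] with x hx
    have hx0 : (0:ℝ) < x := by linarith
    rw [norm_mul, ← mul_assoc, inv_mul_cancel₀ (norm_ne_zero_iff.mpr hc), one_mul]
    rw [Real.norm_of_nonneg (by positivity), Real.norm_of_nonneg (by positivity)]
    rw [← zpow_neg_one]
    apply zpow_le_zpow_right₀ hx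
    omega
  have h2 : (fun x : ℝ => x⁻¹) =O[atTop] fun x : ℝ => A.eval x / B.eval x := h1.trans hequiv.symm.isBigO
  have h3 : IntegrableAtFilter (fun x : ℝ => x⁻¹) atTop volume := by
    refine h2.integrableAtFilter ?_ (h.integrableAtFilter _)
    exact (measurable_inv.stronglyMeasurable).stronglyMeasurableAtFilter
  obtain ⟨s, hs, hint⟩ := h3
  obtain ⟨a, ha⟩ := mem_atTop_sets.mp hs
  have : IntegrableOn (fun x : ℝ => x⁻¹) (Set.Ioi a) := hint.mono_set (fun x hx => ha x (le_of_lt hx))
  exact not_integrableOn_Ioi_inv this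

end Pool.Agent.W_2cf66e_h78.Deg
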