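import Mathlib
import Pool.Agent.W_78bee8_h33.Df
import Pool.Agent.W_2cf66e_h78.Contour
import Pool.Agent.W_2cf66e_h78.Deg

/-! The inner integral of a rational function, divided by pi, is definable. -/

open Polynomial MeasureTheory U78

namespace Pool.Agent.W_2cf66e_h78.Inner

open Pool.Agent.W_2cf66e_h78.Contour

/-- quantifier over a finite type of reals -/
theorem exT {κ α : Type} [Countable κ] [Finite α] {P : (κ ⊕ α → ℝ) → Prop} (h : Df P) :
    Df (fun v : κ → ℝ => ∃ u : α → ℝ, P (Sum.elim v u)) := by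
  obtain ⟨n, ⟨e⟩⟩ := Finite.exists_equiv_fin α
  have h1 := h.comap (κ' := κ ⊕ Fin n) (Sum.map id e)
  refine h1.exV.congr fun v => ?_
  constructor
  · rintro ⟨u, hu⟩
    refine ⟨fun a => u (e a), ?_⟩
    have : (fun i : κ ⊕ α => (Sum.elim v u : κ ⊕ Fin n → ℝ) (Sum.map id e i)) = Sum.elim v (fun a => u (e a)) := by
      funext i; rcases i with i | i <;> rfl
    rwa [this] at hu
  · rintro ⟨u, hu⟩
    refine ⟨fun a => u (e.symm a), ?_⟩
    have : (fun i : κ ⊕ α => (Sum.elim v (fun a => u (e.symm a)) : κ ⊕ Fin n → ℝ) (Sum.map id e i)) = Sum.elim v u := by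
      funext i; rcases i with i | i <;> simp
    rwa [this]

/-- complex valued polynomial functions -/
def PC {κ : Type} (f : (κ → ℝ) → ℂ) : Prop := PolyFun (fun v => (f v).re) ∧ PolyFun (fun v => (f v).im)

theorem pfc {κ : Type} {f g : (κ → ℝ) → ℝ} (hf : PolyFun f) (h : ∀ v, f v = g v) : PolyFun g := by
  have : f = g := funext h
  rwa [this] at hf

theorem PC.congr {κ : Type} {f g : (κ → ℝ) → ℂ} (hf : PC f) (h : ∀ v, f v = g v) : PC g := by
  have : f = g := funext h
  rwa [this] at hf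

theorem PC.ofReal {κ : Type} {f : (κ → ℝ) → ℝ} (hf : PolyFun f) : PC (fun v => ((f v : ℝ) : ℂ)) :=
  ⟨pfc hf fun v => by simp, pfc (PolyFun.const 0) fun v => by simp⟩

theorem PC.mk {κ : Type} {f g : (κ → ℝ) → ℝ} (hf : PolyFun f) (hg : PolyFun g) : PC (fun v => (⟨f v, g v⟩ : ℂ)) :=
  ⟨hf, hg⟩

theorem PC.int {κ : Type} (z : ℤ) : PC (fun _ : κ → ℝ => (z : ℂ)) :=
  (PC.ofReal (PolyFun.const z)).congr fun v => by simp

theorem PC.add {κ : Type} {f g : (κ → ℝ) → ℂ} (hf : PC f) (hg : PC g) : PC (fun v => f v + g v) :=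
  ⟨pfc (hf.1.add hg.1) fun v => by simp, pfc (hf.2.add hg.2) fun v => by simp⟩

theorem PC.mul {κ : Type} {f g : (κ → ℝ) → ℂ} (hf : PC f) (hg : PC g) : PC (fun v => f v * g v) :=
  ⟨pfc ((hf.1.mul hg.1).sub (hf.2.mul hg.2)) fun v => by simp,
    pfc ((hf.1.mul hg.2).add (hf.2.mul hg.1)) fun v => by simp⟩

theorem PC.conj {κ : Type} {f : (κ → ℝ) → ℂ} (hf : PC f) : PC (fun v => (starRingEnd ℂ) (f v)) :=
  ⟨pfc hf.1 fun v => by simp, pfc ((PolyFun.const 0).sub hf.2) fun v => by simp⟩

theorem PC.pow {κ : Type} {f : (κ → ℝ) → ℂ} (hf : PC f) (n : ℕ) : PC (fun v => f v ^ n) := by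
  induction n with
  | zero => exact (PC.int 1).congr fun v => by simp
  | succ n ih => exact (ih.mul hf).congr fun v => by rw [pow_succ]

theorem PC.sum {κ α : Type} (s : Finset α) {f : α → (κ → ℝ) → ℂ} (hf : ∀ a, PC (f a)) :
    PC (fun v => ∑ a ∈ s, f a v) :=
  ⟨pfc (PolyFun.sum s fun a => (hf a).1) fun v => by simp, pfc (PolyFun.sum s fun a => (hf a).2) fun v => by simp⟩

theorem PC.eq {κ : Type} [Countable κ] {f g : (κ → ℝ) → ℂ} (hf : PC f) (hg : PC g) : Df (fun v => f v = g v) :=
  ((Df.eq hf.1 hg.1).and (Df.eq hf.2 hg.2)).congr fun v => Complex.ext_iff.symm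

/-- families of complex polynomials with polynomial coefficients -/
def PP {κ : Type} (P : (κ → ℝ) → ℂ[X]) : Prop := ∀ n, PC (fun v => (P v).coeff n)

theorem PP.add {κ : Type} {P Q : (κ → ℝ) → ℂ[X]} (hP : PP P) (hQ : PP Q) : PP (fun v => P v + Q v) :=
  fun n => ((hP n).add (hQ n)).congr fun v => by simp

theorem PP.mul {κ : Type} {P Q : (κ → ℝ) → ℂ[X]} (hP : PP P) (hQ : PP Q) : PP (fun v => P v * Q v) :=
  fun n => (PC.sum (Finset.HasAntidiagonal.antidiagonal n) fun a => (hP a.1).mul (hQ a.2)).congr fun v => by rw [coeff_mul]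

theorem PP.cj {κ : Type} {P : (κ → ℝ) → ℂ[X]} (hP : PP P) : PP (fun v => Contour.cj (P v)) :=
  fun n => (hP n).conj.congr fun v => by simp [Contour.cj]

theorem PP.monomial {κ : Type} (m : ℕ) {f : (κ → ℝ) → ℂ} (hf : PC f) : PP (fun v => Polynomial.monomial m (f v)) := by
  intro n
  by_cases h : m = n
  · subst h
    exact hf.congr fun v => by simp
  · exact (PC.int 0).congr fun v => by simp [coeff_monomial, h]

theorem PP.sum {κ α : Type} (s : Finset α) {P : α → (κ → ℝ) → ℂ[X]} (hP : ∀ a, PP (P a)) :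
    PP (fun v => ∑ a ∈ s, P a v) :=
  fun n => (PC.sum s fun a => hP a n).congr fun v => by rw [finset_sum_coeff]

theorem PP.C {κ : Type} {f : (κ → ℝ) → ℂ} (hf : PC f) : PP (fun v => Polynomial.C (f v)) :=
  (PP.monomial 0 hf)

/-- the data of a candidate: beta, coefficients of C and U -/
abbrev Dat (m : ℕ) := Option (Fin 4 × Fin m)

noncomputable def Cp {m : ℕ} (u : Dat m → ℝ) : ℂ[X] :=
  Polynomial.monomial m 1 + ∑ j : Fin m, Polynomial.monomial (j : ℕ) (⟨u (some (0, j)), u (some (1, j))⟩ : ℂ)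

noncomputable def Up {m : ℕ} (u : Dat m → ℝ) : ℂ[X] :=
  ∑ j : Fin m, Polynomial.monomial (j : ℕ) (⟨u (some (2, j)), u (some (3, j))⟩ : ℂ)

theorem coeff_low {m : ℕ} (z : Fin m → ℂ) (n : ℕ) :
    (∑ j : Fin m, Polynomial.monomial (j : ℕ) (z j)).coeff n = if h : n < m then z ⟨n, h⟩ else 0 := by
  rw [finset_sum_coeff]
  by_cases h : n < m
  · rw [dif_pos h, Finset.sum_eq_single (⟨n, h⟩ : Fin m)]
    · simp
    · intro b _ hb
      rw [coeff_monomial, if_neg]
      intro h2
      exact hb (Fin.ext h2)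
    · simp
  · rw [dif_neg h]
    refine Finset.sum_eq_zero fun j _ => ?_
    rw [coeff_monomial, if_neg]
    intro h2
    exact h (h2 ▸ j.2)

theorem low_degree {m : ℕ} (z : Fin m → ℂ) :
    (∑ j : Fin m, Polynomial.monomial (j : ℕ) (z j)).degree < m := by
  rw [degree_lt_iff_coeff_zero]
  intro n hn
  rw [coeff_low, dif_neg (by omega)]

theorem low_repr {m : ℕ} (P : ℂ[X]) (h : P.degree < m) :
    P = ∑ j : Fin m, Polynomial.monomial (j : ℕ) (P.coeff j) := by
  ext n
  rw [coeff_low]
  by_cases hn : n < m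
  · rw [dif_pos hn]
  · rw [dif_neg hn]
    exact (degree_lt_iff_coeff_zero P m).mp h n (by omega)

theorem Cp_monic {m : ℕ} (u : Dat m → ℝ) : (Cp u).Monic := by
  rw [Cp, ← X_pow_eq_monomial, ]
  exact monic_X_pow_add (low_degree _)

theorem Cp_natDegree {m : ℕ} (u : Dat m → ℝ) : (Cp u).natDegree = m := by
  have h : (Cp u).degree = m := by
    rw [Cp, ← X_pow_eq_monomial, degree_add_eq_left_of_degree_lt]
    · exact degree_X_pow m
    · rw [degree_X_pow]; exact low_degree _
  exact natDegree_eq_of_degree_eq_some h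

theorem Up_natDegree {m : ℕ} (hm : 0 < m) (u : Dat m → ℝ) : (Up u).natDegree < m := by
  have h : (Up u).degree < m := low_degree _
  rcases eq_or_ne (Up u) 0 with h0 | h0
  · rw [h0]; simpa using hm
  · exact (natDegree_lt_iff_degree_lt h0).mpr h

theorem Up_coeff {m : ℕ} (hm : 0 < m) (u : Dat m → ℝ) : ((Up u).coeff (m - 1)).im = u (some (3, ⟨m - 1, by omega⟩)) := by
  rw [Up, coeff_low, dif_pos (by omega)]

theorem PP_Cp {κ : Type} {m : ℕ} (g : Dat m → κ) : PP (fun z : κ → ℝ => Cp (fun j => z (g j))) := by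
  unfold Cp
  refine PP.add (PP.monomial m ((PC.int 1).congr fun v => by simp)) (PP.sum _ fun j => PP.monomial _ (PC.mk ?_ ?_))
  · exact PolyFun.var _
  · exact PolyFun.var _

theorem PP_Up {κ : Type} {m : ℕ} (g : Dat m → κ) : PP (fun z : κ → ℝ => Up (fun j => z (g j))) := by
  unfold Up
  refine PP.sum _ fun j => PP.monomial _ (PC.mk ?_ ?_)
  · exact PolyFun.var _
  · exact PolyFun.var _

/-- the real polynomial with given coefficients -/
noncomputable def RP (K : ℕ) (a : ℕ → ℝ) : ℝ[X] := ∑ i ∈ Finset.range (K + 1), Polynomial.monomial i (a i)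

theorem RP_coeff (K : ℕ) (a : ℕ → ℝ) (n : ℕ) : (RP K a).coeff n = if n < K + 1 then a n else 0 := by
  rw [RP, finset_sum_coeff]
  by_cases h : n < K + 1
  · rw [if_pos h, Finset.sum_eq_single n]
    · simp
    · intro b _ hb
      rw [coeff_monomial, if_neg hb]
    · intro hn
      exact absurd (Finset.mem_range.mpr h) hn
  · rw [if_neg h]
    refine Finset.sum_eq_zero fun j hj => ?_
    rw [coeff_monomial, if_neg]
    intro h2
    exact h (h2 ▸ Finset.mem_range.mp hj)

theorem RP_natDegree (K : ℕ) (a : ℕ → ℝ) : (RP K a).natDegree ≤ K := by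
  rw [natDegree_le_iff_coeff_eq_zero]
  intro n hn
  rw [RP_coeff, if_neg (by omega)]

theorem RP_eval (K : ℕ) (a : ℕ → ℝ) (x : ℝ) : (RP K a).eval x = ∑ i ∈ Finset.range (K + 1), a i * x ^ i := by
  rw [RP, eval_finset_sum]
  simp

theorem RP_map (K : ℕ) (a : ℕ → ℝ) : (RP K a).map (algebraMap ℝ ℂ) =
    ∑ i ∈ Finset.range (K + 1), Polynomial.monomial i ((a i : ℝ) : ℂ) := by
  rw [RP, Polynomial.map_sum]
  simp

theorem PP_RP {κ κ' : Type} (K : ℕ) {a : ℕ → (κ → ℝ) → ℝ} (ha : ∀ i, PolyFun (a i)) (g : κ → κ') :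
    PP (fun z : κ' → ℝ => (RP K (fun i => a i (fun j => z (g j)))).map (algebraMap ℝ ℂ)) := by
  simp only [RP_map]
  refine PP.sum _ fun i => PP.monomial _ (PC.ofReal ?_)
  obtain ⟨p, hp⟩ := ha i
  exact ⟨MvPolynomial.rename g p, fun v => by beta_reduce; rw [hp, MvPolynomial.aeval_rename]; rfl⟩

/-- the first order condition for degree `m` of `C` -/
def F (K : ℕ) (a b : ℕ → ℝ) (t : ℝ) (m : ℕ) (u : Dat (m + 1) → ℝ) : Prop :=
  0 < u none ∧
  (∀ n : Fin (K + 2 * (m + 1) + 1), ((RP K b).map (algebraMap ℝ ℂ)).coeff n =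
    (Polynomial.C ((u none : ℝ) : ℂ) * (Cp u * cj (Cp u))).coeff n) ∧
  (∀ n : Fin (K + 2 * (m + 1) + 1), ((RP K a).map (algebraMap ℝ ℂ)).coeff n =
    (Up u * cj (Cp u) + cj (Up u) * Cp u).coeff n) ∧
  (∀ n : Fin (K + 1), 2 * (m + 1) ≤ (n : ℕ) + 1 → a n = 0) ∧
  (∀ z : Fin 2 → ℝ, (Cp u).eval (⟨z 0, z 1⟩ : ℂ) = 0 → z 1 < 0) ∧
  u none * t = 2 * u (some (3, Fin.last m))

theorem df_F {κ : Type} [Countable κ] (K : ℕ) {a b : ℕ → (κ → ℝ) → ℝ} (ha : ∀ i, PolyFun (a i))
    (hb : ∀ i, PolyFun (b i)) (m : ℕ) :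
    Df (fun z : (Option κ) ⊕ Dat (m + 1) → ℝ => F K (fun i => a i (fun j => z (Sum.inl (some j))))
      (fun i => b i (fun j => z (Sum.inl (some j)))) (z (Sum.inl none)) m (fun j => z (Sum.inr j))) := by
  unfold F
  refine Df.and ?_ (Df.and ?_ (Df.and ?_ (Df.and ?_ (Df.and ?_ ?_))))
  · exact (Df.lt (PolyFun.const 0) (PolyFun.var (Sum.inr none))).congr fun v => by simp
  · refine Df.forall_fin fun n => PC.eq ?_ ?_
    · exact PP_RP K hb (fun j => Sum.inl (some j)) n
    · exact (PP.mul (PP.C (PC.ofReal (PolyFun.var (Sum.inr none)))) (PP.mul (PP_Cp (fun j => Sum.inr j)) (PP_Cp (fun j => Sum.inr j)).cj)) n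
  · refine Df.forall_fin fun n => PC.eq ?_ ?_
    · exact PP_RP K ha (fun j => Sum.inl (some j)) n
    · exact (PP.add (PP.mul (PP_Up (fun j => Sum.inr j)) (PP_Cp (fun j => Sum.inr j)).cj)
        (PP.mul (PP_Up (fun j => Sum.inr j)).cj (PP_Cp (fun j => Sum.inr j)))) n
  · refine Df.forall_fin fun n => Df.imp (Df.const _) ?_
    obtain ⟨p, hp⟩ := ha n
    have h1 : PolyFun (fun z : (Option κ) ⊕ Dat (m + 1) → ℝ => a n (fun j => z (Sum.inl (some j)))) :=
      ⟨MvPolynomial.rename (fun j => Sum.inl (some j)) p, fun v => by beta_reduce; rw [hp, MvPolynomial.aeval_rename]; rfl⟩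
    exact (Df.eq h1 (PolyFun.const 0)).congr fun v => by simp
  · have h2 : Df (fun z : ((Option κ) ⊕ Dat (m + 1)) ⊕ Fin 2 → ℝ =>
        ((Cp (fun j => z (Sum.inl (Sum.inr j)))).eval (⟨z (Sum.inr 0), z (Sum.inr 1)⟩ : ℂ) = 0 → z (Sum.inr 1) < 0)) := by
      refine Df.imp ?_ ((Df.lt (PolyFun.var (Sum.inr 1)) (PolyFun.const 0)).congr fun v => by simp)
      have hpc : PC (fun z : ((Option κ) ⊕ Dat (m + 1)) ⊕ Fin 2 → ℝ =>
          (Cp (fun j => z (Sum.inl (Sum.inr j)))).eval (⟨z (Sum.inr 0), z (Sum.inr 1)⟩ : ℂ)) := by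
        refine (PC.sum (Finset.range (m + 1 + 1)) fun n => (PP_Cp (fun j => Sum.inl (Sum.inr j)) n).mul
          ((PC.mk (PolyFun.var (Sum.inr 0)) (PolyFun.var (Sum.inr 1))).pow n)).congr fun v => ?_
        rw [eval_eq_sum_range, Cp_natDegree]
      exact (PC.eq hpc (PC.int 0)).congr fun v => by simp
    exact h2.allV
  · exact (Df.eq (PolyFun.mul (PolyFun.var (Sum.inr none)) (PolyFun.var (Sum.inl none)))
      (PolyFun.mul (PolyFun.const 2) (PolyFun.var (Sum.inr (some (3, Fin.last m)))))).congr fun v => by simp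

theorem coeff_ext {P Q : ℂ[X]} {N : ℕ} (hP : P.natDegree < N) (hQ : Q.natDegree < N)
    (h : ∀ n : Fin N, P.coeff n = Q.coeff n) : P = Q := by
  ext n
  by_cases hn : n < N
  · exact h ⟨n, hn⟩
  · rw [coeff_eq_zero_of_natDegree_lt (by omega), coeff_eq_zero_of_natDegree_lt (by omega)]

/-- the formula computes the integral divided by `π` -/
theorem F_iff (K : ℕ) (a b : ℕ → ℝ) (t : ℝ) (hpos : ∀ x : ℝ, 0 < ∑ i ∈ Finset.range (K + 1), b i * x ^ i) :
    (Integrable (fun x : ℝ => (∑ i ∈ Finset.range (K + 1), a i * x ^ i) / ∑ i ∈ Finset.range (K + 1), b i * x ^ i) ∧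
      ∫ x : ℝ, (∑ i ∈ Finset.range (K + 1), a i * x ^ i) / (∑ i ∈ Finset.range (K + 1), b i * x ^ i) = Real.pi * t) ↔
    (((∀ n : Fin (K + 1), a n = 0) ∧ t = 0) ∨ ∃ m : Fin (K + 1), ∃ u : Dat (m + 1) → ℝ, F K a b t m u) := by
  have hpi := Real.pi_pos
  simp only [← RP_eval] at hpos ⊢
  set A := RP K a with hAdef
  set B := RP K b with hBdef
  have hBne : B ≠ 0 := by
    intro h
    have := hpos 0
    rw [h] at this
    simp at this
  constructor
  · rintro ⟨hint, hval⟩
    by_cases hA : A = 0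
    · left
      refine ⟨fun n => ?_, ?_⟩
      · have := congrArg (fun p => p.coeff n) hA
        simp only [hAdef, RP_coeff] at this
        rw [if_pos n.2] at this
        simpa using this
      · rw [hA] at hval
        simpa [hpi.ne'] using hval
    · right
      have hdeg := Deg.deg_of_integrable A B hA hBne hint
      obtain ⟨β, C, hβ, hC, hroot, hfac⟩ := exists_factor _ B rfl hpos
      have hbC : (β : ℂ) ≠ 0 := by exact_mod_cast hβ.ne'
      have hBdeg : B.natDegree = 2 * C.natDegree := by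
        have h1 : (B.map (algebraMap ℝ ℂ)).natDegree = B.natDegree := natDegree_map _
        rw [← h1, hfac, natDegree_C_mul hbC, hC.natDegree_mul (cj_monic hC), cj_natDegree]
        omega
      have hBK : B.natDegree ≤ K := RP_natDegree K b
      obtain ⟨U, hU, hAU⟩ := exists_U hC hroot A (by omega)
      have hcont := contour hβ hC hroot hfac hAU hU hdeg
      have hk : 0 < C.natDegree := by omega
      obtain ⟨m, hm⟩ : ∃ m, C.natDegree = m + 1 := ⟨C.natDegree - 1, by omega⟩
      set u : Dat (m + 1) → ℝ := fun o => match o with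
        | none => β
        | some (0, j) => (C.coeff j).re
        | some (1, j) => (C.coeff j).im
        | some (2, j) => (U.coeff j).re
        | some (3, j) => (U.coeff j).im with hu
      have hCu : Cp u = C := by
        have h1 : C = X ^ (m + 1) + (C - X ^ (m + 1)) := by ring
        have h2 : (C - X ^ (m + 1)).degree < ((m + 1 : ℕ) : WithBot ℕ) := by
          have h3 : C.degree = (X ^ (m + 1) : ℂ[X]).degree := by
            rw [degree_X_pow, degree_eq_natDegree hC.ne_zero, hm]
          have h4 := degree_sub_lt h3 hC.ne_zero (by rw [hC.leadingCoeff, (monic_X_pow _).leadingCoeff])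
          rwa [degree_eq_natDegree hC.ne_zero, hm] at h4
        have h5 := low_repr _ h2
        rw [Cp, ← X_pow_eq_monomial]
        conv_rhs => rw [h1, h5]
        congr 1
        refine Finset.sum_congr rfl fun j _ => ?_
        congr 1
        have h6 : (C - X ^ (m + 1)).coeff j = C.coeff j := by
          rw [coeff_sub, coeff_X_pow, if_neg (by have := j.2; omega), sub_zero]
        rw [h6]
      have hUu : Up u = U := by
        have h2 : U.degree < ((m + 1 : ℕ) : WithBot ℕ) := by
          rcases eq_or_ne U 0 with h0 | h0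
          · rw [h0, degree_zero]; exact WithBot.bot_lt_coe _
          · rw [degree_eq_natDegree h0]
            exact_mod_cast (hm ▸ hU)
        conv_rhs => rw [low_repr U h2]
        rfl
      refine ⟨⟨m, by omega⟩, u, ?_, ?_, ?_, ?_, ?_, ?_⟩
      · exact hβ
      · intro n
        have : u none = β := rfl
        rw [this, hCu, ← hfac]
      · intro n
        rw [hCu, hUu, ← hAU]
      · intro n hn
        have hn' : 2 * (m + 1) ≤ (n : ℕ) + 1 := hn
        have h1 : A.coeff n = 0 := coeff_eq_zero_of_natDegree_lt (by omega)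
        rw [hAdef, RP_coeff, if_pos n.2] at h1
        exact h1
      · intro z hz
        rw [hCu] at hz
        exact hroot _ hz
      · show β * t = 2 * (U.coeff m).im
        have h1 := hcont.2
        rw [hval, hm, Nat.add_sub_cancel] at h1
        have h2 : Real.pi * (β * t) = Real.pi * (2 * (U.coeff m).im) := by
          have : Real.pi * (β * t) = β * (Real.pi * t) := by ring
          rw [this, h1]
          field_simp
        exact mul_left_cancel₀ hpi.ne' h2
  · rintro (⟨hz, ht⟩ | ⟨⟨m, hmK⟩, hF⟩)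
    · have hA : A = 0 := by
        ext n
        rw [hAdef, RP_coeff]
        split_ifs with h
        · simpa using hz ⟨n, h⟩
        · simp
      rw [hA, ht]
      simp
    · obtain ⟨u, hβ, hBu, hAu, hdegA, hrt, htv⟩ : ∃ u : Dat (m + 1) → ℝ, F K a b t m u := hF
      have hroot : ∀ z, (Cp u).IsRoot z → z.im < 0 := by
        intro z h
        exact hrt ![z.re, z.im] h
      have hCm := Cp_monic u
      have hCd : (Cp u).natDegree = m + 1 := Cp_natDegree u
      have hUd : (Up u).natDegree < m + 1 := Up_natDegree (Nat.succ_pos m) u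
      have hfac : B.map (algebraMap ℝ ℂ) = Polynomial.C ((u none : ℝ) : ℂ) * (Cp u * cj (Cp u)) := by
        refine coeff_ext ?_ ?_ hBu
        · rw [natDegree_map]
          have := RP_natDegree K b
          rw [← hBdef] at this
          omega
        · refine lt_of_le_of_lt (natDegree_C_mul_le _ _) (lt_of_le_of_lt natDegree_mul_le ?_)
          rw [cj_natDegree, hCd]
          omega
      have hAU : A.map (algebraMap ℝ ℂ) = Up u * cj (Cp u) + cj (Up u) * Cp u := by
        refine coeff_ext ?_ ?_ hAu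
        · rw [natDegree_map]
          have := RP_natDegree K a
          rw [← hAdef] at this
          omega
        · refine lt_of_le_of_lt (natDegree_add_le _ _) (max_lt ?_ ?_)
          · refine lt_of_le_of_lt natDegree_mul_le ?_
            rw [cj_natDegree, hCd]
            omega
          · refine lt_of_le_of_lt natDegree_mul_le ?_
            rw [cj_natDegree, hCd]
            omega
      have hbC : ((u none : ℝ) : ℂ) ≠ 0 := by exact_mod_cast (show u none ≠ 0 from hβ.ne')
      have hBdeg : B.natDegree = 2 * (m + 1) := by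
        have h1 : (B.map (algebraMap ℝ ℂ)).natDegree = B.natDegree := natDegree_map _
        rw [← h1, hfac, natDegree_C_mul hbC, hCm.natDegree_mul (cj_monic hCm), cj_natDegree, hCd]
        omega
      have hAdeg : A.natDegree + 2 ≤ B.natDegree := by
        have : A.natDegree ≤ 2 * m := by
          rw [natDegree_le_iff_coeff_eq_zero]
          intro n hn
          rw [hAdef, RP_coeff]
          split_ifs with h
          · exact hdegA ⟨n, h⟩ (by simp only; omega)
          · rfl
        omega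
      have hcont := contour hβ hCm hroot hfac hAU (by rw [hCd]; exact hUd) hAdeg
      refine ⟨hcont.1, ?_⟩
      rw [hcont.2, hCd, Up_coeff (Nat.succ_pos m) u]
      have htv' : u none * t = 2 * u (some (3, Fin.last m)) := htv
      have hlast : (⟨m + 1 - 1, by omega⟩ : Fin (m + 1)) = Fin.last m := by
        apply Fin.ext; simp
      rw [hlast]
      have hb0 : u none ≠ 0 := hβ.ne'
      field_simp
      linarith

/-- MAIN: the graph of the inner integral divided by `π` is definable -/
theorem df_inner {κ : Type} [Countable κ] (K : ℕ) {a b : ℕ → (κ → ℝ) → ℝ} (ha : ∀ i, PolyFun (a i))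
    (hb : ∀ i, PolyFun (b i)) (hpos : ∀ v x, 0 < ∑ i ∈ Finset.range (K + 1), b i v * x ^ i) :
    Df (fun w : Option κ → ℝ =>
      Integrable (fun x : ℝ => (∑ i ∈ Finset.range (K + 1), a i (fun j => w (some j)) * x ^ i) /
        ∑ i ∈ Finset.range (K + 1), b i (fun j => w (some j)) * x ^ i) ∧
      ∫ x : ℝ, (∑ i ∈ Finset.range (K + 1), a i (fun j => w (some j)) * x ^ i) /
        (∑ i ∈ Finset.range (K + 1), b i (fun j => w (some j)) * x ^ i) = Real.pi * w none) := by
  have h : Df (fun w : Option κ → ℝ => ((∀ n : Fin (K + 1), a n (fun j => w (some j)) = 0) ∧ w none = 0) ∨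
      ∃ m : Fin (K + 1), ∃ u : Dat (m + 1) → ℝ, F K (fun i => a i (fun j => w (some j))) (fun i => b i (fun j => w (some j))) (w none) m u) := by
    refine Df.or (Df.and (Df.forall_fin fun n => ?_) ?_) (Df.exists_fin fun m => ?_)
    · obtain ⟨p, hp⟩ := ha n
      have h1 : PolyFun (fun z : Option κ → ℝ => a n (fun j => z (some j))) :=
        ⟨MvPolynomial.rename some p, fun v => by beta_reduce; rw [hp, MvPolynomial.aeval_rename]; rfl⟩
      exact (Df.eq h1 (PolyFun.const 0)).congr fun v => by simp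
    · exact (Df.eq (PolyFun.var none) (PolyFun.const 0)).congr fun v => by simp
    · exact exT (df_F K ha hb m)
  exact h.congr fun w => (F_iff K (fun i => a i (fun j => w (some j)))
    (fun i => b i (fun j => w (some j))) (w none) (fun x => hpos _ x)).symm

end Pool.Agent.W_2cf66e_h78.Inner
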