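import Mathlib
import Pool.Agent.W_78bee8_h33.Df
import Pool.Agent.W_2cf66e_h78.Inner
import Pool.Agent.W_2cf66e_h23.Rel
import Pool.Agent.W_2cf66e_h65.ESA

/-! MP_2cf66e_nt: definable sets are semialgebraic; the subgraph relation is definable (helper78). -/

set_option autoImplicit false

noncomputable section

open MvPolynomial U78 Pool.Agent.W_MP_25fb88_lc

open scoped ComplexConjugate

namespace Pool.Agent.WSP

open Pool.Agent.CVol Pool.Agent.W_2cf66e_h78.Inner

theorem aeval_aevalQ {k : ℕ} (g : ℕ → MvPolynomial (Fin k) ℚ) (v : Fin k → ℝ) (p : MvPolynomial ℕ ℤ) :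
    (aeval v (aeval g p : MvPolynomial (Fin k) ℚ) : ℝ) = aeval (fun i => (aeval v (g i) : ℝ)) p := by
  induction p using MvPolynomial.induction_on with
  | C a => simp
  | add p q hp hq => simp only [map_add, hp, hq]
  | mul_X p i hp => simp only [map_mul, hp, aeval_X]

theorem sa_pull {s : Set (ℕ → ℝ)} (h : SA s) {k : ℕ} (g : ℕ → MvPolynomial (Fin k) ℚ) :
    IsSA {v : Fin k → ℝ | (fun i => (aeval v (g i) : ℝ)) ∈ s} := by
  induction h with
  | pos p =>
    have h1 := IsSA.pos (aeval g p : MvPolynomial (Fin k) ℚ)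
    simp only [aeval_aevalQ] at h1
    exact h1
  | compl _ ih => exact ih.compl
  | inter _ _ ih1 ih2 => exact ih1.inter ih2

theorem df_isSA {k : ℕ} {P : (Fin k → ℝ) → Prop} (h : U78.Df P) :
    Pool.Agent.CVol.IsSA {v : Fin k → ℝ | P v} := by
  obtain ⟨f, hf, hs⟩ := h
  have h1 := sa_pull hs (Function.extend f (fun i => (X i : MvPolynomial (Fin k) ℚ)) (fun _ => 0))
  have h2 : {v : Fin k → ℝ | (fun i => (aeval v (Function.extend f (fun i => (X i : MvPolynomial (Fin k) ℚ))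
      (fun _ => 0) i) : ℝ)) ∈ {m : ℕ → ℝ | P (fun i => m (f i))}} = {v : Fin k → ℝ | P v} := by
    ext v
    simp only [Set.mem_setOf_eq, hf.extend_apply, aeval_X]
  rwa [h2] at h1

theorem clearQ {ι : Type} (P : MvPolynomial ι ℚ) :
    ∃ N : ℕ, 0 < N ∧ U78.PolyFun (fun v : ι → ℝ => (N : ℝ) * aeval v P) := by
  induction P using MvPolynomial.induction_on with
  | C a =>
    refine ⟨a.den, a.den_pos, pfc (PolyFun.const a.num) fun v => ?_⟩
    have h1 : ((a.den : ℚ)) * a = a.num := Rat.den_mul_eq_num a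
    have h2 : ((a.den : ℝ)) * (a : ℝ) = (a.num : ℝ) := by exact_mod_cast h1
    simp [h2]
  | add p q hp hq =>
    obtain ⟨N, hN, h1⟩ := hp
    obtain ⟨M, hM, h2⟩ := hq
    refine ⟨N * M, Nat.mul_pos hN hM, pfc (((PolyFun.const (M : ℤ)).mul h1).add ((PolyFun.const (N : ℤ)).mul h2)) fun v => ?_⟩
    rw [map_add]; push_cast; ring
  | mul_X p i hp =>
    obtain ⟨N, hN, h1⟩ := hp
    refine ⟨N, hN, pfc (h1.mul (PolyFun.var i)) fun v => ?_⟩
    rw [map_mul, aeval_X]; ring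

theorem PolyFun_comap {κ κ' : Type} {f : (κ → ℝ) → ℝ} (hf : PolyFun f) (g : κ → κ') :
    PolyFun (fun v : κ' → ℝ => f (fun i => v (g i))) := by
  obtain ⟨p, hp⟩ := hf
  exact ⟨MvPolynomial.rename g p, fun v => by beta_reduce; rw [hp, MvPolynomial.aeval_rename]; rfl⟩

theorem PC_sub {κ : Type} {f g : (κ → ℝ) → ℂ} (hf : PC f) (hg : PC g) : PC (fun v => f v - g v) :=
  ⟨pfc (hf.1.sub hg.1) fun v => by simp, pfc (hf.2.sub hg.2) fun v => by simp⟩

theorem PC_prod {κ α : Type} (s : Finset α) {f : α → (κ → ℝ) → ℂ} (hf : ∀ a, PC (f a)) :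
    PC (fun v => ∏ a ∈ s, f a v) := by
  classical
  induction s using Finset.induction_on with
  | empty => exact (PC.int 1).congr fun v => by simp
  | insert a s ha ih => exact ((hf a).mul ih).congr fun v => by rw [Finset.prod_insert ha]

theorem PC_lin {κ : Type} {f g : (κ → ℝ) → ℝ} (hf : PolyFun f) (hg : PolyFun g) :
    PC (fun v => (f v : ℂ) + (g v : ℂ) * Complex.I) :=
  ⟨pfc hf fun v => by simp, pfc hg fun v => by simp⟩

theorem PC_normSq {κ : Type} {f : (κ → ℝ) → ℂ} (hf : PC f) : PolyFun (fun v => Complex.normSq (f v)) :=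
  pfc ((hf.1.mul hf.1).add (hf.2.mul hf.2)) fun v => by rw [Complex.normSq_apply]

theorem PC_CC {κ : Type} {m : ℕ} {a b : Fin (m + 1) → (κ → ℝ) → ℝ} {w : (κ → ℝ) → ℝ}
    (ha : ∀ j, PolyFun (a j)) (hb : ∀ j, PolyFun (b j)) (hw : PolyFun w) :
    PC (fun z => CC (ZZ (fun j => a j z) (fun j => b j z)) ((w z : ℝ) : ℂ)) := by
  unfold CC ZZ
  exact PC_prod _ fun j => PC_sub (PC.ofReal hw) (PC_lin (ha j) (hb j))

theorem PC_UU {κ : Type} {m : ℕ} {a b : Fin (m + 1) → (κ → ℝ) → ℝ} {w : (κ → ℝ) → ℝ}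
    (ha : ∀ j, PolyFun (a j)) (hb : ∀ j, PolyFun (b j)) (hw : PolyFun w) :
    PC (fun z => UU (fun j => a j z) (fun j => b j z) (w z)) := by
  unfold UU
  exact PC.sum _ fun j => (PC_lin (ha j) (hb j)).mul ((PC.ofReal hw).pow _)

/-- the identity for all real `w` is definable -/
theorem df_ident {κ : Type} [Countable κ] {n m : ℕ} (P Q : MvPolynomial (Fin (n + 1)) ℚ)
    (gx : Fin n → κ) (ga gb gu gv : Fin (m + 1) → κ) :
    Df (fun z : κ → ℝ => ∀ w : ℝ, (aeval (Fin.cons w (fun j => z (gx j)) : Fin (n + 1) → ℝ) P : ℝ) *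
        Complex.normSq (CC (ZZ (fun j => z (ga j)) (fun j => z (gb j))) (w : ℂ)) =
      2 * (aeval (Fin.cons w (fun j => z (gx j)) : Fin (n + 1) → ℝ) Q : ℝ) *
        (UU (fun j => z (gu j)) (fun j => z (gv j)) w *
          conj (CC (ZZ (fun j => z (ga j)) (fun j => z (gb j))) (w : ℂ))).re) := by
  obtain ⟨N, hN, h1⟩ := clearQ P
  obtain ⟨M, hM, h2⟩ := clearQ Q
  have hN' : (N : ℝ) ≠ 0 := by exact_mod_cast hN.ne'
  have hM' : (M : ℝ) ≠ 0 := by exact_mod_cast hM.ne'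
  set g : Fin (n + 1) → Option κ := Fin.cons none (fun j => some (gx j)) with hg
  have hcons : ∀ z : Option κ → ℝ, (fun i => z (g i)) = (Fin.cons (z none) (fun j => z (some (gx j))) : Fin (n + 1) → ℝ) := by
    intro z
    funext i
    refine Fin.cases ?_ (fun j => ?_) i
    · simp [hg]
    · simp [hg]
  have hP := PolyFun_comap h1 g
  have hQ := PolyFun_comap h2 g
  have hw : PolyFun (fun z : Option κ → ℝ => z none) := PolyFun.var none
  have hv : ∀ (g' : Fin (m + 1) → κ) (j : Fin (m + 1)), PolyFun (fun z : Option κ → ℝ => z (some (g' j))) :=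
    fun g' j => PolyFun.var (some (g' j))
  have hC := PC_CC (hv ga) (hv gb) hw
  have hU := PC_UU (hv gu) (hv gv) hw
  have hL : PolyFun (fun z : Option κ → ℝ => ((M : ℤ) : ℝ) * (((N : ℝ) * aeval (fun i => z (g i)) P) *
      Complex.normSq (CC (ZZ (fun j => z (some (ga j))) (fun j => z (some (gb j)))) ((z none : ℝ) : ℂ)))) :=
    (PolyFun.const (M : ℤ)).mul (hP.mul (PC_normSq hC))
  have hR : PolyFun (fun z : Option κ → ℝ => ((N : ℤ) : ℝ) * ((((2 : ℤ) : ℝ) * ((M : ℝ) * aeval (fun i => z (g i)) Q)) *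
      (UU (fun j => z (some (gu j))) (fun j => z (some (gv j))) (z none) *
          conj (CC (ZZ (fun j => z (some (ga j))) (fun j => z (some (gb j)))) ((z none : ℝ) : ℂ))).re)) :=
    (PolyFun.const (N : ℤ)).mul (((PolyFun.const 2).mul hQ).mul (hU.mul hC.conj).1)
  have h := (Df.eq hL hR).all
  refine h.congr fun z => forall_congr' fun w => ?_
  have e1 : (fun i => (g i).elim w z) = (Fin.cons w (fun j => z (gx j)) : Fin (n + 1) → ℝ) :=
    hcons (fun o : Option κ => o.elim w z)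
  simp only [e1, Option.elim_none, Option.elim_some]
  constructor
  · intro h3
    have h4 : (N : ℝ) * M * ((aeval (Fin.cons w (fun j => z (gx j)) : Fin (n + 1) → ℝ) P : ℝ) *
        Complex.normSq (CC (ZZ (fun j => z (ga j)) (fun j => z (gb j))) (w : ℂ))) =
      (N : ℝ) * M * (2 * (aeval (Fin.cons w (fun j => z (gx j)) : Fin (n + 1) → ℝ) Q : ℝ) *
        (UU (fun j => z (gu j)) (fun j => z (gv j)) w *
          conj (CC (ZZ (fun j => z (ga j)) (fun j => z (gb j))) (w : ℂ))).re) := by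
      push_cast at h3
      linear_combination h3
    exact mul_left_cancel₀ (mul_ne_zero hN' hM') h4
  · intro h3
    push_cast
    linear_combination (N : ℝ) * M * h3

theorem df_sub {n : ℕ} (P Q : MvPolynomial (Fin (n + 1)) ℚ) (m : ℕ) :
    U78.Df (fun y : Fin (n + 1) → ℝ => Sub P Q m y) := by
  unfold Sub Rel
  refine Df.and ((Df.lt (PolyFun.const 0) (PolyFun.var 0)).congr fun y => by simp) ?_
  -- the innermost relation
  let κ0 := Option (Fin (n + 1))
  let κ4 := (((κ0 ⊕ Fin (m + 1)) ⊕ Fin (m + 1)) ⊕ Fin (m + 1)) ⊕ Fin (m + 1)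
  have h4 : Df (fun z : κ4 → ℝ => (∀ j, 0 < z (Sum.inl (Sum.inl (Sum.inr j)))) ∧
      z (Sum.inl (Sum.inl (Sum.inl (Sum.inl none)))) = -2 * z (Sum.inr (Fin.last m)) ∧
      ∀ w : ℝ, (aeval (Fin.cons w (fun j => z (Sum.inl (Sum.inl (Sum.inl (Sum.inl (some j.succ)))))) : Fin (n + 1) → ℝ) P : ℝ) *
        Complex.normSq (CC (ZZ (fun j => z (Sum.inl (Sum.inl (Sum.inl (Sum.inr j))))) (fun j => z (Sum.inl (Sum.inl (Sum.inr j))))) (w : ℂ)) =
      2 * (aeval (Fin.cons w (fun j => z (Sum.inl (Sum.inl (Sum.inl (Sum.inl (some j.succ)))))) : Fin (n + 1) → ℝ) Q : ℝ) *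
        (UU (fun j => z (Sum.inl (Sum.inr j))) (fun j => z (Sum.inr j)) w *
          conj (CC (ZZ (fun j => z (Sum.inl (Sum.inl (Sum.inl (Sum.inr j))))) (fun j => z (Sum.inl (Sum.inl (Sum.inr j))))) (w : ℂ))).re) := by
    refine Df.and (Df.forall_fin fun j => ?_) (Df.and ?_ ?_)
    · exact (Df.lt (PolyFun.const 0) (PolyFun.var (Sum.inl (Sum.inl (Sum.inr j))))).congr fun z => by simp
    · exact (Df.eq (PolyFun.var (Sum.inl (Sum.inl (Sum.inl (Sum.inl none))))) ((PolyFun.const (-2)).mul (PolyFun.var (Sum.inr (Fin.last m))))).congr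
        fun z => by simp
    · exact df_ident P Q (fun j => (Sum.inl (Sum.inl (Sum.inl (Sum.inl (some j.succ)))) : κ4))
        (fun j => Sum.inl (Sum.inl (Sum.inl (Sum.inr j)))) (fun j => Sum.inl (Sum.inl (Sum.inr j)))
        (fun j => Sum.inl (Sum.inr j)) (fun j => Sum.inr j)
  have h0 := h4.exV.exV.exV.exV
  have h5 := (Df.and (Df.lt (PolyFun.var (some 0 : κ0)) (PolyFun.var (none : κ0))) h0).ex
  exact h5

theorem sa_sub {n : ℕ} (P Q : MvPolynomial (Fin (n + 1)) ℚ) (m : ℕ) :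
    Pool.Agent.CVol.IsSA {y : Fin (n + 1) → ℝ | Sub P Q m y} := df_isSA (df_sub P Q m)

end Pool.Agent.WSP
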