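import Mathlib
import Pool.Agent.W_2cf66e_h65.ISet
import Pool.Agent.W_2cf66e_h78.Dfn

/-! MP_2cf66e_nt: the volume step (helper78). -/

set_option autoImplicit false

noncomputable section

open MeasureTheory MvPolynomial

namespace Pool.Agent.WSP

open Pool.Agent.CVol

theorem vol_eq {n : ℕ} (g : (Fin n → ℝ) → ℝ) (hg : Integrable g) (S : Set (Fin (n + 1) → ℝ))
    (hS : MeasurableSet S)
    (h : ∀ᵐ y : Fin n → ℝ, ∀ t : ℝ, (Fin.cons t y : Fin (n + 1) → ℝ) ∈ S ↔ 0 < t ∧ t < g y) :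
    volume S = ENNReal.ofReal (∫ y, max (g y) 0) := by
  have hmp := (volume_preserving_piFinSuccAbove (fun _ : Fin (n + 1) => ℝ) 0).symm
  have hsymm : ∀ p : ℝ × (Fin n → ℝ), (MeasurableEquiv.piFinSuccAbove (fun _ : Fin (n + 1) => ℝ) 0).symm p =
      (Fin.cons p.1 p.2 : Fin (n + 1) → ℝ) := by
    intro p
    simp [MeasurableEquiv.piFinSuccAbove, Fin.insertNthEquiv]
  have h1 := hmp.measure_preimage hS.nullMeasurableSet
  rw [← h1]
  have hT : MeasurableSet ((MeasurableEquiv.piFinSuccAbove (fun _ : Fin (n + 1) => ℝ) 0).symm ⁻¹' S) :=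
    (MeasurableEquiv.piFinSuccAbove (fun _ : Fin (n + 1) => ℝ) 0).symm.measurable hS
  rw [Measure.volume_eq_prod, Measure.prod_apply_symm hT]
  have h2 : ∀ᵐ y : Fin n → ℝ, volume ((fun t : ℝ => (t, y)) ⁻¹'
      ((MeasurableEquiv.piFinSuccAbove (fun _ : Fin (n + 1) => ℝ) 0).symm ⁻¹' S)) = ENNReal.ofReal (max (g y) 0) := by
    filter_upwards [h] with y hy
    have h3 : ((fun t : ℝ => (t, y)) ⁻¹' ((MeasurableEquiv.piFinSuccAbove (fun _ : Fin (n + 1) => ℝ) 0).symm ⁻¹' S)) = Set.Ioo 0 (g y) := by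
      ext t
      simp only [Set.mem_preimage, hsymm, Set.mem_Ioo]
      exact hy t
    rw [h3, Real.volume_Ioo, sub_zero]
    rcases le_total (g y) 0 with h4 | h4
    · rw [max_eq_right h4, ENNReal.ofReal_of_nonpos h4, ENNReal.ofReal_zero]
    · rw [max_eq_left h4]
  have hint : Integrable (fun y => max (g y) 0) := hg.sup (integrable_zero _ _ _)
  rw [lintegral_congr_ae h2, ofReal_integral_eq_lintegral_ofReal hint (ae_of_all _ fun y => le_max_right _ _)]

theorem vol_step2 {n : ℕ} (g : (Fin n → ℝ) → ℝ) (hg : Integrable g) (S : Set (Fin (n + 1) → ℝ))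
    (hS : IsSA S)
    (h : ∀ᵐ y : Fin n → ℝ, ∀ t : ℝ, (Fin.cons t y : Fin (n + 1) → ℝ) ∈ S ↔ 0 < t ∧ t < g y) :
    IsPeriod (∫ y, max (g y) 0) ∧ IsPeriod (-∫ y, max (g y) 0) := by
  have hv := vol_eq g hg S hS.measurable h
  have hfin : volume S ≠ ⊤ := by rw [hv]; exact ENNReal.ofReal_ne_top
  have hnn : 0 ≤ ∫ y, max (g y) 0 := integral_nonneg fun y => le_max_right _ _
  have key : ∀ c : ℚ, IsPeriod ((∫ y, max (g y) 0) * c) := by
    intro c
    have hfun : ∀ x : Fin (n + 1) → ℝ, (aeval x (C c : MvPolynomial (Fin (n + 1)) ℚ) : ℝ) /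
        aeval x (1 : MvPolynomial (Fin (n + 1)) ℚ) = (c : ℝ) := by
      intro x; simp
    have hi : IntegrableOn (fun x : Fin (n + 1) → ℝ => (aeval x (C c : MvPolynomial (Fin (n + 1)) ℚ) : ℝ) /
        aeval x (1 : MvPolynomial (Fin (n + 1)) ℚ)) S := by
      simp only [hfun]
      exact integrableOn_const hfin
    have h1 := period_of_int hS (C c) 1 hi
    simp only [hfun] at h1
    rw [setIntegral_const, measureReal_def, hv, ENNReal.toReal_ofReal hnn, smul_eq_mul] at h1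
    exact h1
  constructor
  · simpa using key 1
  · simpa using key (-1)

theorem vol_step {n : ℕ} (g : (Fin n → ℝ) → ℝ) (hg : Integrable g) (S : Set (Fin (n + 1) → ℝ))
    (hS : CVol.IsSA S)
    (h : ∀ᵐ y : Fin n → ℝ, ∀ t : ℝ, (Fin.cons t y : Fin (n + 1) → ℝ) ∈ S ↔ 0 < t ∧ t < g y) :
    CVol.IsPeriod (∫ y, max (g y) 0) := (vol_step2 g hg S hS h).1

theorem period_neg {x : ℝ} (hx : CVol.IsPeriod x) : CVol.IsPeriod (-x) := by
  obtain ⟨n, P, Q, k, m, p, hi, hv⟩ := hx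
  have hfun : ∀ z : Fin n → ℝ, (aeval z (-P) : ℝ) / aeval z Q = -((aeval z P : ℝ) / aeval z Q) := by
    intro z
    rw [map_neg, neg_div]
  refine ⟨n, -P, Q, k, m, p, ?_, ?_⟩
  · simp only [hfun]
    exact hi.neg
  · simp only [hfun]
    rw [integral_neg, hv]

end Pool.Agent.WSP
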